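import Pool.Agent.Y920.ETC.Stm

/-!
# Project ET, job EXT: recognition of group extensions, arbitrary `-1`
-/

set_option autoImplicit false

namespace Pool.Agent.Y781.ET

open Pool.Agent.H315R3.ETC Pool.Agent.Y920.ETC

section step

variable {S : QData} (h : IsQuat S) (K : Subgroup S.G) (x : S.G) (hx : x ∉ K)
  (hneg : S.neg ∈ K)
  (hin : ∀ a b : S.G, a ∈ K → a ≠ 1 → S.q a b = S.zero → b ∈ K)
  (hout : ∀ a b : S.G, a ∉ K → S.q a b = S.zero → b = 1 ∨ b = S.neg * a)

include hneg in
lemma neg_mem {a : S.G} (ha : S.neg * a ∈ K) : a ∈ K := by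
  have := K.mul_mem (K.inv_mem hneg) ha
  rwa [inv_mul_cancel_left] at this

include h hx hneg hin hout in
lemma L12' {a b c d : S.G} (ha : a ∈ K) (hb : b ∈ K) (hc : c ∈ K) (hd : d ∈ K) :
    S.q a b = S.q (c * x) d ↔ (S.q a b = S.q c d ∧ 1 = d) := by
  have hcx := kx h K x hx hc
  constructor
  · intro e
    have hd1 : d = 1 := by
      by_contra hd1
      obtain ⟨y, e1, e2⟩ := h.qs4 _ _ _ _ e
      have h1 : S.q (c * x) (d * y) = S.zero := (h.qs3 _ _ _).1 e2
      rcases hout _ _ hcx h1 with h3 | h3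
      · have hy : d = y := eq_of_mul h _ _ h3
        subst hy
        have h4 : S.q d a = S.q d (c * x) := by
          rw [h.qs2 d a, h.qs2 d (c * x), ← e1]; exact e
        have h5 := (h.qs3 _ _ _).1 h4
        have h6 := hin _ _ hd hd1 h5
        apply hcx
        have := K.mul_mem ha h6
        rwa [← mul_assoc, h.exp2, one_mul] at this
      · have hy : y ∉ K := by
          intro hy
          apply hcx
          apply neg_mem K hneg
          rw [← h3]
          exact K.mul_mem hd hy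
        by_cases ha1 : a = 1
        · have h4 : S.q a b = S.zero := by rw [ha1, h.qs2]; exact q_one h b
          rw [h4] at e
          rcases hout _ _ hcx e.symm with h5 | h5
          · exact hd1 h5
          · exact hcx (neg_mem K hneg (h5 ▸ hd))
        · have h4 := hin _ _ ha ha1 ((h.qs3 _ _ _).1 e1)
          apply hy
          have := K.mul_mem hb h4
          rwa [← mul_assoc, h.exp2, one_mul] at this
    subst hd1
    refine ⟨?_, rfl⟩
    rw [e, q_one h, q_one h]
  · rintro ⟨e1, rfl⟩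
    rw [e1, q_one h, q_one h]

include h hx hneg hin hout in
lemma L22' {a b c d : S.G} (ha : a ∈ K) (hb : b ∈ K) (hc : c ∈ K) (hd : d ∈ K) :
    S.q (a * x) b = S.q (c * x) d ↔ (S.q a b = S.q c d ∧ b = d) := by
  have hax := kx h K x hx ha
  have hcx := kx h K x hx hc
  have hcc : a * x * (c * x) = a * c := by
    rw [mul_mul_mul_comm, h.exp2 x, mul_one]
  constructor
  · intro e
    have hbd : b = d := by
      by_cases hb1 : b = 1
      · rw [hb1, q_one h] at e
        rcases hout _ _ hcx e.symm with h5 | h5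
        · rw [hb1, h5]
        · exact absurd (neg_mem K hneg (h5 ▸ hd)) hcx
      · rw [h.qs2 (a * x), h.qs2 (c * x)] at e
        obtain ⟨y, e1, e2⟩ := h.qs4 _ _ _ _ e
        have h1 := hin _ _ hb hb1 ((h.qs3 _ _ _).1 e1)
        have hy : y ∉ K := by
          intro hy
          apply hax
          have := K.mul_mem h1 hy
          rwa [mul_assoc (a * x), h.exp2, mul_one] at this
        have h2 : S.q y b = S.q y d := by
          rw [h.qs2 y b, h.qs2 y d, ← e1, ← e2]; exact e
        rcases hout _ _ hy ((h.qs3 _ _ _).1 h2) with h3 | h3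
        · exact eq_of_mul h _ _ h3
        · exact absurd (neg_mem K hneg (h3 ▸ K.mul_mem hb hd)) hy
    subst hbd
    refine ⟨?_, rfl⟩
    rw [h.qs2 (a * x), h.qs2 (c * x), h.qs3, hcc] at e
    rw [h.qs2 a, h.qs2 c, h.qs3]
    exact e
  · rintro ⟨e, rfl⟩
    rw [h.qs2 (a * x), h.qs2 (c * x), h.qs3, hcc]
    rw [h.qs2 a, h.qs2 c, h.qs3] at e
    exact e

include h in
lemma nf' (p r : K × C2) :
    (∃ a b : K, (ext (restrN S K hneg)).q p r = (S.q a b, 1) ∧
      S.q ((p.1 : S.G) * xp x p.2) ((r.1 : S.G) * xp x r.2) = S.q a b) ∨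
    (∃ a b : K, (ext (restrN S K hneg)).q p r = (S.q a b, b) ∧
      S.q ((p.1 : S.G) * xp x p.2) ((r.1 : S.G) * xp x r.2) = S.q (a * x) b) := by
  obtain ⟨a, α⟩ := p
  obtain ⟨b, β⟩ := r
  rcases C2_cases α with rfl | rfl <;> rcases C2_cases β with rfl | rfl
  · left
    refine ⟨a, b, ?_, ?_⟩
    · show (S.q a b, pw (pw (⟨S.neg, hneg⟩ : K) 1) 1 * pw a 1 * pw b 1) = _
      simp [pw]
      rfl
    · simp [xp]
  · right
    refine ⟨b, a, ?_, ?_⟩
    · show (S.q a b, pw (pw (⟨S.neg, hneg⟩ : K) 1) gen * pw a gen * pw b 1) = _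
      simp [pw, gen_ne, h.qs2 (a : S.G) b]
    · simp only [xp, if_pos, if_neg gen_ne, mul_one]
      exact h.qs2 _ _
  · right
    refine ⟨a, b, ?_, ?_⟩
    · show (S.q a b, pw (pw (⟨S.neg, hneg⟩ : K) gen) 1 * pw a 1 * pw b gen) = _
      simp [pw, gen_ne]
    · simp [xp, gen_ne]
  · right
    refine ⟨a, ⟨S.neg, hneg⟩ * a * b, ?_, ?_⟩
    · show (S.q a b, pw (pw (⟨S.neg, hneg⟩ : K) gen) gen * pw a gen * pw b gen) = _
      have : S.q (a : S.G) ((⟨S.neg, hneg⟩ * a * b : K) : S.G) = S.q a b := by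
        rw [Subgroup.coe_mul, Subgroup.coe_mul]
        exact q_shift h _ (h.qs1 _)
      rw [this]
      simp [pw, gen_ne]
    · simp only [xp, if_neg gen_ne]
      have : ((⟨S.neg, hneg⟩ * a * b : K) : S.G) = S.neg * (a * x) * (b * x) := by
        rw [Subgroup.coe_mul, Subgroup.coe_mul]
        show S.neg * (a : S.G) * b = S.neg * (a * x) * (b * x)
        rw [mul_assoc S.neg (a * x), mul_mul_mul_comm, h.exp2 x, mul_one, mul_assoc]
      rw [this]
      exact (q_shift h _ (h.qs1 _)).symm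

end step

theorem t_EXT : S_EXT := by
  intro S h K x hneg hxK hK hbi
  have hin : ∀ a b : S.G, a ∈ K → a ≠ 1 → S.q a b = S.zero → b ∈ K := by
    intro a b ha ha1 hab
    by_contra hb
    rcases (hbi b hb).2.2.1 a (by rw [h.qs2]; exact hab) with h1 | h1
    · exact ha1 h1
    · exact hb (neg_mem K hneg (h1 ▸ ha))
  have hout : ∀ a b : S.G, a ∉ K → S.q a b = S.zero → b = 1 ∨ b = S.neg * a :=
    fun a b ha hab => (hbi a ha).2.2.1 b hab
  constructor
  · constructor
    · intro a
      exact Subtype.ext (h.exp2 a.1)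
    · intro (a : K)
      exact h.qs1 a.1
    · intro a b
      exact h.qs2 _ _
    · intro a b c
      exact h.qs3 _ _ _
    · intro (a : K) (b : K) (c : K) (d : K) e
      by_cases ha1 : (a : S.G) = 1
      · refine ⟨1, ?_, ?_⟩
        · show S.q a.1 b.1 = S.q a.1 1
          rw [q_one h, ha1, h.qs2, q_one h]
        · show S.q c.1 d.1 = S.q c.1 1
          have e' : S.q a.1 b.1 = S.q c.1 d.1 := e
          rw [← e', q_one h, ha1, h.qs2, q_one h]
      · obtain ⟨y, h1, h3⟩ := h.qs4 _ _ _ _ e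
        have h4 := hin _ _ a.2 ha1 ((h.qs3 _ _ _).1 h1)
        have hy : y ∈ K := by
          have := K.mul_mem b.2 h4
          rwa [← mul_assoc, h.exp2, one_mul] at this
        exact ⟨⟨y, hy⟩, h1, h3⟩
  · refine ⟨phi h.exp2 K x hxK hK, ?_, ?_⟩
    · show S.neg * xp x 1 = S.neg
      rw [xp_one, mul_one]
    · intro (p : K × C2) (r : K × C2) (p' : K × C2) (r' : K × C2)
      show _ ↔ S.q ((p.1 : S.G) * xp x p.2) ((r.1 : S.G) * xp x r.2) =
        S.q ((p'.1 : S.G) * xp x p'.2) ((r'.1 : S.G) * xp x r'.2)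
      rcases nf' h K x hneg p r with ⟨a, b, e1, e2⟩ | ⟨a, b, e1, e2⟩ <;>
        rcases nf' h K x hneg p' r' with ⟨c, d, e3, e4⟩ | ⟨c, d, e3, e4⟩
      · rw [e1, e2, e3, e4]
        refine Iff.trans (Prod.mk_inj (β := K)) ?_
        exact ⟨fun e => e.1, fun e => ⟨e, rfl⟩⟩
      · rw [e1, e2, e3, e4]
        refine Iff.trans (Prod.mk_inj (β := K)) ?_
        rw [L12' h K x hxK hneg hin hout a.2 b.2 c.2 d.2]
        exact and_congr_right fun _ => Subtype.ext_iff
      · rw [e1, e2, e3, e4]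
        refine Iff.trans (Prod.mk_inj (β := K)) ?_
        rw [eq_comm (a := S.q (a * x) b), L12' h K x hxK hneg hin hout c.2 d.2 a.2 b.2]
        constructor
        · rintro ⟨h1, h3⟩
          exact ⟨h1.symm, (congrArg Subtype.val h3).symm⟩
        · rintro ⟨h1, h3⟩
          exact ⟨h1.symm, Subtype.ext h3.symm⟩
      · rw [e1, e2, e3, e4]
        refine Iff.trans (Prod.mk_inj (β := K)) ?_
        rw [L22' h K x hxK hneg hin hout a.2 b.2 c.2 d.2]
        exact and_congr_right fun _ => Subtype.ext_iff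

end Pool.Agent.Y781.ET
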